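import Pool.Agent.H91.Sym.A2
import Pool.Agent.H29.Sym.A3
import Pool.Agent.H23.Sym.B1
import Pool.Agent.H91.Sym.B2

/-! Module B3 of project SYM: density of the range of `L = Δ - ∇U · ∇` on test functions. -/

set_option autoImplicit false

open MeasureTheory Set Filter Topology
open scoped ContDiff Pointwise

namespace Pool.Agent.H84.Sym

open Pool.Agent.H84

namespace B3x

section B3

variable {E : Type*} [NormedAddCommGroup E] [InnerProductSpace ℝ E]
    [FiniteDimensional ℝ E] [MeasurableSpace E] [BorelSpace E]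
variable {ι : Type*} [Fintype ι]

omit [FiniteDimensional ℝ E] [MeasurableSpace E] [BorelSpace E] in
theorem LO_cut (b : OrthonormalBasis ι ℝ E) {U χ u : E → ℝ} (hχ : ContDiff ℝ 2 χ)
    (hu : ContDiff ℝ 2 u) (x : E) :
    LO b U (fun y => χ y * u y) x = χ x * LO b U u x + 2 * ∑ i, D (b i) χ x * D (b i) u x
      + u x * (∑ i, D (b i) (D (b i) χ) x - ∑ i, D (b i) U x * D (b i) χ x) := by
  have hdχ : Differentiable ℝ χ := hχ.differentiable (by norm_num)
  have hdu : Differentiable ℝ u := hu.differentiable (by norm_num)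
  have h1 : ∀ i, D (b i) (fun y => χ y * u y) = fun y => D (b i) χ y * u y + χ y * D (b i) u y :=
    fun i => funext fun y => D_mul (hdχ y) (hdu y) (b i)
  have hDχ : ∀ i, Differentiable ℝ (D (b i) χ) := fun i =>
    (contDiff_D (m := 1) hχ (by norm_num) (b i)).differentiable (by norm_num)
  have hDu : ∀ i, Differentiable ℝ (D (b i) u) := fun i =>
    (contDiff_D (m := 1) hu (by norm_num) (b i)).differentiable (by norm_num)
  have h2 : ∀ i, D (b i) (D (b i) (fun y => χ y * u y)) x =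
      D (b i) (D (b i) χ) x * u x + 2 * (D (b i) χ x * D (b i) u x)
        + χ x * D (b i) (D (b i) u) x := by
    intro i
    rw [h1 i]
    have h3 : D (b i) (fun y => D (b i) χ y * u y + χ y * D (b i) u y) x =
        D (b i) (fun y => D (b i) χ y * u y) x + D (b i) (fun y => χ y * D (b i) u y) x := by
      simp only [D]
      rw [show (fun y => (fderiv ℝ χ y) (b i) * u y + χ y * (fderiv ℝ u y) (b i)) =
        (fun y => (fderiv ℝ χ y) (b i) * u y) + (fun y => χ y * (fderiv ℝ u y) (b i)) from rfl,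
        fderiv_add]
      · rfl
      · exact ((hDχ i) x).mul (hdu x)
      · exact (hdχ x).mul ((hDu i) x)
    rw [h3, D_mul ((hDχ i) x) (hdu x), D_mul (hdχ x) ((hDu i) x)]
    ring
  have h4 : ∀ i, D (b i) (fun y => χ y * u y) x = D (b i) χ x * u x + χ x * D (b i) u x :=
    fun i => D_mul (hdχ x) (hdu x) (b i)
  simp only [LO, h2, h4, mul_add, Finset.sum_add_distrib]
  rw [mul_sub, mul_sub]
  simp only [Finset.mul_sum]
  have e1 : ∑ i, D (b i) (D (b i) χ) x * u x = ∑ i, u x * D (b i) (D (b i) χ) x :=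
    Finset.sum_congr rfl fun i _ => mul_comm _ _
  have e2 : ∑ i, D (b i) U x * (D (b i) χ x * u x) = ∑ i, u x * (D (b i) U x * D (b i) χ x) :=
    Finset.sum_congr rfl fun i _ => by ring
  have e3 : ∑ i, D (b i) U x * (χ x * D (b i) u x) = ∑ i, χ x * (D (b i) U x * D (b i) u x) :=
    Finset.sum_congr rfl fun i _ => by ring
  rw [e1, e2, e3]
  ring

omit [MeasurableSpace E] [BorelSpace E] in
theorem continuous_LO (b : OrthonormalBasis ι ℝ E) {U u : E → ℝ} (hU : ContDiff ℝ 1 U)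
    (hu : ContDiff ℝ 2 u) : Continuous (LO b U u) := by
  unfold LO
  refine Continuous.sub ?_ ?_
  · exact continuous_finsetSum _ fun i _ =>
      (contDiff_D (m := 0) (contDiff_D (m := 1) hu (by norm_num) (b i)) (by norm_num)
        (b i)).continuous
  · exact continuous_finsetSum _ fun i _ =>
      ((contDiff_D (m := 0) hU (by norm_num) (b i)).continuous).mul
        ((contDiff_D (m := 0) (n := 1) (hu.of_le (by norm_num)) (by norm_num) (b i)).continuous)

theorem integrable_exp_neg {U : E → ℝ} (hU : Continuous U) (hfin : IsFiniteMeasure (mu U)) :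
    Integrable (fun x => Real.exp (-U x)) := by
  have h1 : mu U univ < ⊤ := hfin.measure_univ_lt_top
  unfold mu at h1
  rw [withDensity_apply _ MeasurableSet.univ, Measure.restrict_univ] at h1
  refine ⟨(Real.continuous_exp.comp hU.neg).aestronglyMeasurable, ?_⟩
  rw [hasFiniteIntegral_iff_ofReal (Eventually.of_forall fun x => (Real.exp_pos _).le)]
  exact h1

theorem mu_real_univ {U : E → ℝ} (hU : Continuous U) :
    (mu U).real univ = ∫ x, Real.exp (-U x) := by
  have h := integral_mu hU (fun _ => (1:ℝ))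
  simpa using h

end B3

section Box

variable {n : ℕ}


theorem isClosed_BoxE (ρ : ℝ) : IsClosed (BoxE ρ : Set (EuclideanSpace ℝ (Fin n))) := by
  have : (BoxE ρ : Set (EuclideanSpace ℝ (Fin n))) = ⋂ i, {x : (EuclideanSpace ℝ (Fin n)) | |x i| ≤ ρ} := by
    ext x; simp [BoxE]
  rw [this]
  exact isClosed_iInter fun i => isClosed_le (by fun_prop) continuous_const

theorem BoxE_sub (ρ : ℝ) : (BoxE ρ : Set (EuclideanSpace ℝ (Fin n))) ⊆ Metric.closedBall 0 (∑ _i : Fin n, |ρ|) := by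
  intro x hx
  rw [mem_closedBall_zero_iff]
  have h1 : x = ∑ i, x i • (EuclideanSpace.basisFun (Fin n) ℝ) i := by
    have := (EuclideanSpace.basisFun (Fin n) ℝ).sum_repr x
    simpa using this.symm
  rw [h1]
  refine (norm_sum_le _ _).trans (Finset.sum_le_sum fun i _ => ?_)
  rw [norm_smul, (EuclideanSpace.basisFun (Fin n) ℝ).orthonormal.1 i, mul_one, Real.norm_eq_abs]
  exact (hx i).trans (le_abs_self ρ)

theorem sub_BoxE {ρ : ℝ} {x : (EuclideanSpace ℝ (Fin n))} (hx : ‖x‖ ≤ ρ) : x ∈ (BoxE ρ : Set (EuclideanSpace ℝ (Fin n))) := by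
  intro i
  have := PiLp.norm_apply_le x i
  rw [Real.norm_eq_abs] at this
  exact this.trans hx

theorem BoxE_mono {ρ ρ' : ℝ} (h : ρ ≤ ρ') : (BoxE ρ : Set (EuclideanSpace ℝ (Fin n))) ⊆ BoxE ρ' :=
  fun _ hx i => (hx i).trans h

theorem integrableOn_BoxE {F : (EuclideanSpace ℝ (Fin n)) → ℝ} (hF : Continuous F) (ρ : ℝ) :
    IntegrableOn F (BoxE ρ : Set (EuclideanSpace ℝ (Fin n))) :=
  (hF.continuousOn.integrableOn_compact (isCompact_closedBall _ _)).mono_set (BoxE_sub ρ)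

theorem mu_le_box {U F G : (EuclideanSpace ℝ (Fin n)) → ℝ} {ρ K : ℝ} (hU : Continuous U) (hF : Continuous F)
    (hG : Continuous G) (h0 : ∀ x, x ∉ (BoxE ρ : Set (EuclideanSpace ℝ (Fin n))) → F x = 0) (hle : ∀ x, F x ≤ K * G x) :
    ∫ x, F x ∂(mu U) ≤ K * ∫ x in (BoxE ρ : Set (EuclideanSpace ℝ (Fin n))), G x * Real.exp (-U x) := by
  have hw : Continuous fun x => Real.exp (-U x) := Real.continuous_exp.comp hU.neg
  rw [integral_mu hU, ← setIntegral_eq_integral_of_forall_compl_eq_zero (s := (BoxE ρ : Set (EuclideanSpace ℝ (Fin n)))),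
    ← integral_const_mul]
  · refine setIntegral_mono (integrableOn_BoxE (hF.mul hw) ρ)
      (integrableOn_BoxE (continuous_const.mul (hG.mul hw)) ρ) fun x => ?_
    have := mul_le_mul_of_nonneg_right (hle x) (Real.exp_pos (-U x)).le
    simpa [mul_assoc] using this
  · intro x hx
    rw [h0 x hx, zero_mul]

theorem five_sq (a b c d e : ℝ) :
    (a + b + c + d + e) ^ 2 ≤ 5 * (a ^ 2 + b ^ 2 + c ^ 2 + d ^ 2 + e ^ 2) := by
  have h : 5 * (a ^ 2 + b ^ 2 + c ^ 2 + d ^ 2 + e ^ 2) - (a + b + c + d + e) ^ 2 =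
      (a - b) ^ 2 + (a - c) ^ 2 + (a - d) ^ 2 + (a - e) ^ 2 + (b - c) ^ 2 + (b - d) ^ 2
        + (b - e) ^ 2 + (c - d) ^ 2 + (c - e) ^ 2 + (d - e) ^ 2 := by ring
  have h2 : 0 ≤ 5 * (a ^ 2 + b ^ 2 + c ^ 2 + d ^ 2 + e ^ 2) - (a + b + c + d + e) ^ 2 := by
    rw [h]; positivity
  linarith

/-- The means over large boxes converge. -/
theorem box_mean {U h : (EuclideanSpace ℝ (Fin n)) → ℝ} {t C : ℝ} (hU : Pot U t C) (hh : Continuous h)
    {M c : ℝ} (hM : ∀ x, |h x| ≤ M) (hc : HasCompactSupport h)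
    (hm : c * (mu U).real univ = ∫ x, h x ∂(mu U)) {δ : ℝ} (hδ : 0 < δ) (R : ℝ) :
    ∃ ρ c' : ℝ, R ≤ ρ ∧ 0 < ρ ∧ |c'| ≤ M ∧ (c' - c) ^ 2 ≤ δ ∧
      c' * (∫ x in (BoxE ρ : Set (EuclideanSpace ℝ (Fin n))), Real.exp (-U x)) =
        ∫ x in (BoxE ρ : Set (EuclideanSpace ℝ (Fin n))), h x * Real.exp (-U x) := by
  have hUc : Continuous U := hU.smooth.continuous
  have hfin : IsFiniteMeasure (mu U) := isFinite_mu hU
  have hw : Continuous fun x => Real.exp (-U x) := Real.continuous_exp.comp hUc.neg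
  have hwi := integrable_exp_neg hUc hfin
  have hZ := mu_univ_pos hUc hfin
  rw [mu_real_univ hUc] at hZ hm
  rw [integral_mu hUc] at hm
  have hhw : Integrable fun x => h x * Real.exp (-U x) :=
    (hh.mul hw).integrable_of_hasCompactSupport hc.mul_right
  have hmeas : ∀ j : ℕ, MeasurableSet (BoxE (j:ℝ) : Set (EuclideanSpace ℝ (Fin n))) := fun j =>
    (isClosed_BoxE _).measurableSet
  have hmono : Monotone fun j : ℕ => (BoxE (j:ℝ) : Set (EuclideanSpace ℝ (Fin n))) := fun i j hij =>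
    BoxE_mono (by exact_mod_cast hij)
  have hun : (⋃ j : ℕ, (BoxE (j:ℝ) : Set (EuclideanSpace ℝ (Fin n)))) = univ := by
    refine eq_univ_of_forall fun x => ?_
    obtain ⟨j, hj⟩ := exists_nat_ge ‖x‖
    exact mem_iUnion.2 ⟨j, sub_BoxE hj⟩
  have t1 : Tendsto (fun j : ℕ => ∫ x in (BoxE (j:ℝ) : Set (EuclideanSpace ℝ (Fin n))), Real.exp (-U x)) atTop
      (𝓝 (∫ x, Real.exp (-U x))) := by
    have := tendsto_setIntegral_of_monotone hmeas hmono
      (f := fun x => Real.exp (-U x)) (μ := volume) hwi.integrableOn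
    rwa [hun, setIntegral_univ] at this
  have t2 : Tendsto (fun j : ℕ => ∫ x in (BoxE (j:ℝ) : Set (EuclideanSpace ℝ (Fin n))), h x * Real.exp (-U x)) atTop
      (𝓝 (∫ x, h x * Real.exp (-U x))) := by
    have := tendsto_setIntegral_of_monotone hmeas hmono
      (f := fun x => h x * Real.exp (-U x)) (μ := volume) hhw.integrableOn
    rwa [hun, setIntegral_univ] at this
  have t3 := t2.div t1 hZ.ne'
  have hc' : (∫ x, h x * Real.exp (-U x)) / (∫ x, Real.exp (-U x)) = c := by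
    rw [div_eq_iff hZ.ne', hm]
  rw [hc'] at t3
  have t4 : Tendsto (fun j : ℕ => ((∫ x in (BoxE (j:ℝ) : Set (EuclideanSpace ℝ (Fin n))), h x * Real.exp (-U x)) /
      (∫ x in (BoxE (j:ℝ) : Set (EuclideanSpace ℝ (Fin n))), Real.exp (-U x)) - c) ^ 2) atTop (𝓝 0) := by
    have := (t3.sub_const c).pow 2
    simpa using this
  have e1 := t4.eventually (eventually_le_nhds hδ)
  have e2 := t1.eventually (eventually_gt_nhds hZ)
  obtain ⟨j, ⟨hj1, hj2⟩, hj3, hj4⟩ := ((e1.and e2).and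
    ((eventually_ge_atTop ⌈R⌉₊).and (eventually_gt_atTop 0))).exists
  refine ⟨j, (∫ x in (BoxE (j:ℝ) : Set (EuclideanSpace ℝ (Fin n))), h x * Real.exp (-U x)) /
      (∫ x in (BoxE (j:ℝ) : Set (EuclideanSpace ℝ (Fin n))), Real.exp (-U x)), ?_, by exact_mod_cast hj4, ?_, hj1, ?_⟩
  · exact (Nat.le_ceil R).trans (by exact_mod_cast hj3)
  · rw [abs_div, abs_of_pos hj2, div_le_iff₀ hj2]
    refine (abs_integral_le_integral_abs).trans ?_
    rw [← integral_const_mul]
    refine setIntegral_mono hhw.abs.integrableOn (hwi.const_mul M).integrableOn fun x => ?_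
    simp only [abs_mul, abs_of_pos (Real.exp_pos (-U x))]
    exact mul_le_mul_of_nonneg_right (hM x) (Real.exp_pos _).le
  · rw [div_mul_cancel₀ _ hj2.ne']

theorem cut_step {U h : (EuclideanSpace ℝ (Fin n)) → ℝ} {t C : ℝ} (hU : Pot U t C) (hh : ContDiff ℝ 1 h)
    (hc : HasCompactSupport h) {M c : ℝ} (hM : ∀ x, |h x| ≤ M)
    (hm : c * (mu U).real univ = ∫ x, h x ∂(mu U)) {δ a : ℝ} (hδ : 0 < δ) (hδ1 : δ ≤ 1)
    {χ : (EuclideanSpace ℝ (Fin n)) → ℝ} (hχ : Tst χ) (hχ01 : ∀ x, 0 ≤ χ x ∧ χ x ≤ 1)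
    (hχ1 : ∀ x : (EuclideanSpace ℝ (Fin n)), (1 + ‖x‖) * ‖fderiv ℝ χ x‖ ≤ a)
    (hχ2 : ∀ x : (EuclideanSpace ℝ (Fin n)), |∑ i, D (EuclideanSpace.basisFun (Fin n) ℝ i)
      (D (EuclideanSpace.basisFun (Fin n) ℝ i) χ) x| ≤ a) :
    ∃ u : (EuclideanSpace ℝ (Fin n)) → ℝ, Tst u ∧
      ∫ x, (LO (EuclideanSpace.basisFun (Fin n) ℝ) U u x + (h x - c)) ^ 2 ∂(mu U) ≤
        5 * (δ + δ * (mu U).real univ + (∫ x, ((1 - χ x) * (h x - c)) ^ 2 ∂(mu U))
          + 4 * a ^ 2 * (2 / t * ((2 * M) ^ 2 * (mu U).real univ + 1))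
          + (a + C * a) ^ 2 * (2 / t ^ 2 * ((2 * M) ^ 2 * (mu U).real univ + 1))) := by
  have hUc : Continuous U := hU.smooth.continuous
  have ht := hU.pos
  have hfin : IsFiniteMeasure (mu U) := isFinite_mu hU
  have hw : Continuous fun x => Real.exp (-U x) := Real.continuous_exp.comp hUc.neg
  have hwi := integrable_exp_neg hUc hfin
  have hC : 0 ≤ C := by
    have h1 := hU.grad 0
    rw [norm_zero] at h1
    nlinarith [norm_nonneg (fderiv ℝ U 0)]
  have hM0 : 0 ≤ M := (abs_nonneg _).trans (hM 0)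
  have ha : 0 ≤ a := le_trans (by positivity) (hχ1 0)
  obtain ⟨R, hR⟩ := (hχ.2.isCompact.isBounded).subset_closedBall (0 : (EuclideanSpace ℝ (Fin n)))
  obtain ⟨ρ, c', hρR, hρ, hc'M, hc'c, hc'⟩ := box_mean hU hh.continuous hM hc hm hδ R
  obtain ⟨u, hu, hu1, hu2, hu3⟩ := box_solve hU hh hρ hδ hc'
  set b := EuclideanSpace.basisFun (Fin n) ℝ with hb
  have hu' : ContDiff ℝ 2 u := contDiff_infty.1 hu 2
  have hχ' : ContDiff ℝ 2 χ := contDiff_infty.1 hχ.1 2
  have hχc : Continuous χ := hχ'.continuous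
  have hUC1 : ContDiff ℝ 1 U := hU.smooth.of_le (by norm_num)
  -- support
  have hsupp : ∀ x, x ∉ (BoxE ρ : Set (EuclideanSpace ℝ (Fin n))) → x ∉ tsupport χ := by
    intro x hx hx'
    have := hR hx'
    rw [mem_closedBall_zero_iff] at this
    exact hx (sub_BoxE (this.trans hρR))
  have hχ0 : ∀ x, x ∉ (BoxE ρ : Set (EuclideanSpace ℝ (Fin n))) → χ x = 0 := fun x hx =>
    image_eq_zero_of_notMem_tsupport (hsupp x hx)
  have hdχ0 : ∀ x, x ∉ (BoxE ρ : Set (EuclideanSpace ℝ (Fin n))) → fderiv ℝ χ x = 0 := fun x hx =>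
    image_eq_zero_of_notMem_tsupport fun h => hsupp x hx (tsupport_fderiv_subset ℝ h)
  have hddχ0 : ∀ x, x ∉ (BoxE ρ : Set (EuclideanSpace ℝ (Fin n))) → ∀ i, D (b i) (D (b i) χ) x = 0 := by
    intro x hx i
    have h1 : x ∉ tsupport (D (b i) χ) := by
      intro h
      refine hsupp x hx ?_
      have h2 : tsupport (D (b i) χ) ⊆ tsupport (fderiv ℝ χ) := by
        refine closure_mono fun y hy => ?_
        rw [Function.mem_support] at hy ⊢
        intro h3
        apply hy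
        simp [D, h3]
      exact (tsupport_fderiv_subset ℝ (h2 h))
    have h4 : fderiv ℝ (D (b i) χ) x = 0 :=
      image_eq_zero_of_notMem_tsupport fun h => h1 (tsupport_fderiv_subset ℝ h)
    simpa [D] using congrArg (fun ℓ => ℓ (b i)) h4
  -- functions
  set T1 : (EuclideanSpace ℝ (Fin n)) → ℝ := fun x => (χ x * (LO b U u x + (h x - c'))) ^ 2 with hT1
  set T2 : (EuclideanSpace ℝ (Fin n)) → ℝ := fun x => (χ x * (c' - c)) ^ 2 with hT2
  set T3 : (EuclideanSpace ℝ (Fin n)) → ℝ := fun x => ((1 - χ x) * (h x - c)) ^ 2 with hT3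
  set T4 : (EuclideanSpace ℝ (Fin n)) → ℝ := fun x => (2 * ∑ i, D (b i) χ x * D (b i) u x) ^ 2 with hT4
  set T5 : (EuclideanSpace ℝ (Fin n)) → ℝ := fun x =>
    (u x * (∑ i, D (b i) (D (b i) χ) x - ∑ i, D (b i) U x * D (b i) χ x)) ^ 2 with hT5
  have cLO : Continuous (LO b U u) := continuous_LO b hUC1 hu'
  have cD : ∀ (f : (EuclideanSpace ℝ (Fin n)) → ℝ), ContDiff ℝ 2 f → ∀ i, Continuous (D (b i) f) := fun f hf i =>
    (contDiff_D (m := 0) (n := 1) (hf.of_le (by norm_num)) (by norm_num) (b i)).continuous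
  have cDU : ∀ i, Continuous (D (b i) U) := fun i =>
    (contDiff_D (m := 0) hUC1 (by norm_num) (b i)).continuous
  have cDD : ∀ i, Continuous (D (b i) (D (b i) χ)) := fun i =>
    (contDiff_D (m := 0) (contDiff_D (m := 1) hχ' (by norm_num) (b i)) (by norm_num)
        (b i)).continuous
  have cT1 : Continuous T1 := (hχc.mul (cLO.add (hh.continuous.sub continuous_const))).pow 2
  have cT2 : Continuous T2 := (hχc.mul continuous_const).pow 2
  have cT3 : Continuous T3 :=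
    ((continuous_const.sub hχc).mul (hh.continuous.sub continuous_const)).pow 2
  have cT4 : Continuous T4 := (continuous_const.mul
    (continuous_finsetSum _ fun i _ => (cD χ hχ' i).mul (cD u hu' i))).pow 2
  have cT5 : Continuous T5 := (hu'.continuous.mul ((continuous_finsetSum _ fun i _ => cDD i).sub
    (continuous_finsetSum _ fun i _ => (cDU i).mul (cD χ hχ' i)))).pow 2
  have z1 : ∀ x, x ∉ (BoxE ρ : Set (EuclideanSpace ℝ (Fin n))) → T1 x = 0 := fun x hx => by simp [hT1, hχ0 x hx]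
  have z4 : ∀ x, x ∉ (BoxE ρ : Set (EuclideanSpace ℝ (Fin n))) → T4 x = 0 := fun x hx => by
    simp [hT4, D, hdχ0 x hx]
  have z5 : ∀ x, x ∉ (BoxE ρ : Set (EuclideanSpace ℝ (Fin n))) → T5 x = 0 := fun x hx => by
    have := hddχ0 x hx
    simp only [hT5, this]
    simp [D, hdχ0 x hx]
  have hsT : ∀ F : (EuclideanSpace ℝ (Fin n)) → ℝ, (∀ x, x ∉ (BoxE ρ : Set (EuclideanSpace ℝ (Fin n))) → F x = 0) → HasCompactSupport F := by
    intro F hF
    refine HasCompactSupport.intro (isCompact_closedBall (0:(EuclideanSpace ℝ (Fin n))) (∑ _i : Fin n, |ρ|))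
      fun x hx => hF x fun h => hx (BoxE_sub ρ h)
  have iT1 : Integrable T1 (mu U) := integrable_mu hUc cT1 (hsT T1 z1)
  have iT4 : Integrable T4 (mu U) := integrable_mu hUc cT4 (hsT T4 z4)
  have iT5 : Integrable T5 (mu U) := integrable_mu hUc cT5 (hsT T5 z5)
  have iT2 : Integrable T2 (mu U) := by
    refine integrable_mu hUc cT2 (hsT T2 fun x hx => by simp [hT2, hχ0 x hx])
  have iT3 : Integrable T3 (mu U) := by
    refine Integrable.mono' (integrable_const ((M + |c|) ^ 2)) cT3.aestronglyMeasurable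
      (Eventually.of_forall fun x => ?_)
    simp only [hT3, Real.norm_eq_abs, abs_pow, abs_mul]
    rw [← one_mul (M + |c|)]
    refine pow_le_pow_left₀ (by positivity) (mul_le_mul ?_ ?_ (abs_nonneg _) zero_le_one) 2
    · rw [abs_le]; constructor <;> linarith [(hχ01 x).1, (hχ01 x).2]
    · exact (abs_sub _ _).trans (add_le_add_left (hM x) _)
  -- bounds
  have hZ0 : 0 ≤ (mu U).real univ := measureReal_nonneg
  have hbox : (∫ x in (BoxE ρ : Set (EuclideanSpace ℝ (Fin n))), (h x - c') ^ 2 * Real.exp (-U x)) + δ ≤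
      (2 * M) ^ 2 * (mu U).real univ + 1 := by
    refine add_le_add ?_ hδ1
    rw [mu_real_univ hUc, ← integral_const_mul]
    have hb1 : ∀ x, (h x - c') ^ 2 ≤ (2 * M) ^ 2 := by
      intro x
      rw [← sq_abs (h x - c')]
      refine pow_le_pow_left₀ (abs_nonneg _) ?_ 2
      calc |h x - c'| ≤ |h x| + |c'| := abs_sub _ _
        _ ≤ M + M := add_le_add (hM x) hc'M
        _ = 2 * M := by ring
    have hb2 : Continuous fun x => (h x - c') ^ 2 * Real.exp (-U x) :=
      ((hh.continuous.sub continuous_const).pow 2).mul hw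
    exact (setIntegral_mono (integrableOn_BoxE hb2 ρ)
      (hwi.const_mul ((2 * M) ^ 2)).integrableOn fun x =>
        mul_le_mul_of_nonneg_right (hb1 x) (Real.exp_pos _).le).trans
      (setIntegral_le_integral (hwi.const_mul _) (Eventually.of_forall fun x => by positivity))
  have b1 : ∫ x, T1 x ∂(mu U) ≤ δ := by
    refine (mu_le_box (G := fun x => (LO b U u x + (h x - c')) ^ 2) (K := 1) (ρ := ρ) hUc cT1
      ((cLO.add (hh.continuous.sub continuous_const)).pow 2) z1 fun x => ?_).trans ?_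
    · simp only [hT1, mul_pow]
      refine mul_le_mul_of_nonneg_right ?_ (sq_nonneg _)
      exact pow_le_one₀ (hχ01 x).1 (hχ01 x).2
    · rw [one_mul]; exact hu1
  have b2 : ∫ x, T2 x ∂(mu U) ≤ δ * (mu U).real univ := by
    have h1 : ∫ x, T2 x ∂(mu U) ≤ ∫ _x, δ ∂(mu U) := by
      refine integral_mono iT2 (integrable_const _) fun x => ?_
      simp only [hT2, mul_pow]
      calc χ x ^ 2 * (c' - c) ^ 2 ≤ 1 * (c' - c) ^ 2 :=
            mul_le_mul_of_nonneg_right (pow_le_one₀ (hχ01 x).1 (hχ01 x).2) (sq_nonneg _)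
        _ ≤ δ := by rw [one_mul]; exact hc'c
    refine h1.trans (le_of_eq ?_)
    rw [integral_const, smul_eq_mul, mul_comm]
  have hgr : ∀ x, ‖fderiv ℝ χ x‖ ≤ a := by
    intro x
    refine le_trans ?_ (hχ1 x)
    nlinarith [norm_nonneg x, norm_nonneg (fderiv ℝ χ x), mul_nonneg (norm_nonneg x)
      (norm_nonneg (fderiv ℝ χ x))]
  have b4 : ∫ x, T4 x ∂(mu U) ≤ 4 * a ^ 2 * (2 / t * ((2 * M) ^ 2 * (mu U).real univ + 1)) := by
    refine (mu_le_box (G := fun x => ‖fderiv ℝ u x‖ ^ 2) (K := 4 * a ^ 2) (ρ := ρ) hUc cT4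
      (((hu'.continuous_fderiv (by norm_num)).norm).pow 2) z4 fun x => ?_).trans ?_
    · simp only [hT4, mul_pow]
      have h1 := Finset.sum_mul_sq_le_sq_mul_sq Finset.univ (fun i => D (b i) χ x)
        (fun i => D (b i) u x)
      rw [← norm_fderiv_sq b χ x, ← norm_fderiv_sq b u x] at h1
      have h2 : ‖fderiv ℝ χ x‖ ^ 2 ≤ a ^ 2 := pow_le_pow_left₀ (norm_nonneg _) (hgr x) 2
      have h3 : ‖fderiv ℝ χ x‖ ^ 2 * ‖fderiv ℝ u x‖ ^ 2 ≤ a ^ 2 * ‖fderiv ℝ u x‖ ^ 2 :=
        mul_le_mul_of_nonneg_right h2 (sq_nonneg _)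
      nlinarith
    · refine mul_le_mul_of_nonneg_left (hu2.trans ?_) (by positivity)
      exact mul_le_mul_of_nonneg_left hbox (by positivity)
  have b5 : ∫ x, T5 x ∂(mu U) ≤
      (a + C * a) ^ 2 * (2 / t ^ 2 * ((2 * M) ^ 2 * (mu U).real univ + 1)) := by
    refine (mu_le_box (G := fun x => u x ^ 2) (K := (a + C * a) ^ 2) (ρ := ρ) hUc cT5
      (hu'.continuous.pow 2) z5 fun x => ?_).trans ?_
    · simp only [hT5, mul_pow]
      rw [mul_comm]
      refine mul_le_mul_of_nonneg_right ?_ (sq_nonneg _)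
      rw [← sq_abs]
      refine pow_le_pow_left₀ (abs_nonneg _) ?_ 2
      refine (abs_sub _ _).trans (add_le_add (hχ2 x) ?_)
      have h1 := Finset.sum_mul_sq_le_sq_mul_sq Finset.univ (fun i => D (b i) U x)
        (fun i => D (b i) χ x)
      rw [← norm_fderiv_sq b χ x, ← norm_fderiv_sq b U x, ← mul_pow] at h1
      have h2 := abs_le_of_sq_le_sq h1 (by positivity)
      refine h2.trans ?_
      calc ‖fderiv ℝ U x‖ * ‖fderiv ℝ χ x‖ ≤ (C * (1 + ‖x‖)) * ‖fderiv ℝ χ x‖ :=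
            mul_le_mul_of_nonneg_right (hU.grad x) (norm_nonneg _)
        _ = C * ((1 + ‖x‖) * ‖fderiv ℝ χ x‖) := by ring
        _ ≤ C * a := mul_le_mul_of_nonneg_left (hχ1 x) hC
    · refine mul_le_mul_of_nonneg_left (hu3.trans ?_) (by positivity)
      exact mul_le_mul_of_nonneg_left hbox (by positivity)
  refine ⟨fun x => χ x * u x, ⟨hχ.1.mul hu, hχ.2.mul_right⟩, ?_⟩
  have key : ∀ x, (LO b U (fun x => χ x * u x) x + (h x - c)) ^ 2 ≤
      5 * (T1 x + T2 x + T3 x + T4 x + T5 x) := by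
    intro x
    rw [LO_cut b hχ' hu' x]
    simp only [hT1, hT2, hT3, hT4, hT5]
    set p1 := χ x * (LO b U u x + (h x - c')) with hp1
    set p2 := χ x * (c' - c) with hp2
    set p3 := (1 - χ x) * (h x - c) with hp3
    set p4 := 2 * ∑ i, D (b i) χ x * D (b i) u x with hp4
    set p5 := u x * (∑ i, D (b i) (D (b i) χ) x - ∑ i, D (b i) U x * D (b i) χ x) with hp5
    have hsum : χ x * LO b U u x + p4 + p5 + (h x - c) = p1 + p2 + p3 + p4 + p5 := by
      rw [hp1, hp2, hp3]; ring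
    rw [hsum]
    exact five_sq p1 p2 p3 p4 p5
  have iS : Integrable (fun x => 5 * (T1 x + T2 x + T3 x + T4 x + T5 x)) (mu U) :=
    ((((iT1.add iT2).add iT3).add iT4).add iT5).const_mul 5
  refine (integral_mono_of_nonneg (Eventually.of_forall fun x => sq_nonneg _) iS
    (Eventually.of_forall key)).trans ?_
  have hI : ∫ x, 5 * (T1 x + T2 x + T3 x + T4 x + T5 x) ∂(mu U) =
      5 * ((∫ x, T1 x ∂(mu U)) + (∫ x, T2 x ∂(mu U)) + (∫ x, T3 x ∂(mu U))
        + (∫ x, T4 x ∂(mu U)) + ∫ x, T5 x ∂(mu U)) := by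
    rw [integral_const_mul]
    congr 1
    rw [integral_add (f := fun x => T1 x + T2 x + T3 x + T4 x) (((iT1.add iT2).add iT3).add iT4) iT5,
      integral_add (f := fun x => T1 x + T2 x + T3 x) ((iT1.add iT2).add iT3) iT4,
      integral_add (f := fun x => T1 x + T2 x) (iT1.add iT2) iT3, integral_add iT1 iT2]
  rw [hI]
  exact mul_le_mul_of_nonneg_left (add_le_add (add_le_add (add_le_add (add_le_add b1 b2)
    (le_refl (∫ x, T3 x ∂(mu U)))) b4) b5) (by norm_num)

theorem dense_range_eucl {U h : (EuclideanSpace ℝ (Fin n)) → ℝ} {t C : ℝ} (hU : Pot U t C)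
    (hh : ContDiff ℝ 1 h) (hc : HasCompactSupport h) {c : ℝ}
    (hm : c * (mu U).real univ = ∫ x, h x ∂(mu U)) {ε : ℝ} (hε : 0 < ε) :
    ∃ u : (EuclideanSpace ℝ (Fin n)) → ℝ, Tst u ∧
      ∫ x, (LO (EuclideanSpace.basisFun (Fin n) ℝ) U u x + (h x - c)) ^ 2 ∂(mu U) ≤ ε := by
  have hUc : Continuous U := hU.smooth.continuous
  have hfin : IsFiniteMeasure (mu U) := isFinite_mu hU
  obtain ⟨A, χ, hχ⟩ := exists_cutoff (EuclideanSpace.basisFun (Fin n) ℝ)
  obtain ⟨M, hM⟩ := hc.exists_bound_of_continuous hh.continuous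
  have hM' : ∀ x, |h x| ≤ M := fun x => by simpa [Real.norm_eq_abs] using hM x
  have t3 : Tendsto (fun k : ℕ => ∫ x, ((1 - χ k x) * (h x - c)) ^ 2 ∂(mu U)) atTop (𝓝 0) := by
    have h0 : (0:ℝ) = ∫ _x : (EuclideanSpace ℝ (Fin n)), (0:ℝ) ∂(mu U) := by simp
    rw [h0]
    refine tendsto_integral_of_dominated_convergence (fun _ => (M + |c|) ^ 2) ?_
      (integrable_const _) ?_ ?_
    · intro k
      exact (((continuous_const.sub (hχ k).1.1.continuous).mul
        (hh.continuous.sub continuous_const)).pow 2).aestronglyMeasurable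
    · intro k
      refine Eventually.of_forall fun x => ?_
      simp only [Real.norm_eq_abs, abs_pow, abs_mul]
      rw [← one_mul (M + |c|)]
      refine pow_le_pow_left₀ (by positivity) (mul_le_mul ?_ ?_ (abs_nonneg _) zero_le_one) 2
      · rw [abs_le]; constructor <;> linarith [((hχ k).2.1 x).1, ((hχ k).2.1 x).2]
      · exact (abs_sub _ _).trans (add_le_add_left (hM' x) _)
    · refine Eventually.of_forall fun x => ?_
      refine tendsto_const_nhds.congr' ?_
      filter_upwards [eventually_ge_atTop ⌈Real.log (1 + ‖x‖ ^ 2)⌉₊] with k hk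
      have h1 : Real.log (1 + ‖x‖ ^ 2) ≤ k + 1 := by
        have := (Nat.le_ceil (Real.log (1 + ‖x‖ ^ 2))).trans (Nat.cast_le.2 hk)
        linarith
      rw [(hχ k).2.2.1 x h1]
      simp
  have t0 : Tendsto (fun k : ℕ => (1:ℝ) / ((k:ℝ) + 1)) atTop (𝓝 0) :=
    tendsto_one_div_add_atTop_nhds_zero_nat
  have tA : Tendsto (fun k : ℕ => A / ((k:ℝ) + 1)) atTop (𝓝 0) := by
    have := t0.const_mul A
    simpa only [mul_one_div, mul_zero] using this
  set Z := (mu U).real univ with hZ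
  have tt : Tendsto (fun k : ℕ => 5 * (1 / ((k:ℝ) + 1) + 1 / ((k:ℝ) + 1) * Z
      + (∫ x, ((1 - χ k x) * (h x - c)) ^ 2 ∂(mu U))
      + 4 * (A / ((k:ℝ) + 1)) ^ 2 * (2 / t * ((2 * M) ^ 2 * Z + 1))
      + (A / ((k:ℝ) + 1) + C * (A / ((k:ℝ) + 1))) ^ 2 * (2 / t ^ 2 * ((2 * M) ^ 2 * Z + 1))))
      atTop (𝓝 (5 * (0 + 0 * Z + 0 + 4 * 0 ^ 2 * (2 / t * ((2 * M) ^ 2 * Z + 1))
        + (0 + C * 0) ^ 2 * (2 / t ^ 2 * ((2 * M) ^ 2 * Z + 1))))) :=
    ((((t0.add (t0.mul_const Z)).add t3).add (((tA.pow 2).const_mul 4).mul_const _)).add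
      (((tA.add (tA.const_mul C)).pow 2).mul_const _)).const_mul 5
  have e0 : (5 * (0 + 0 * Z + 0 + 4 * 0 ^ 2 * (2 / t * ((2 * M) ^ 2 * Z + 1))
        + (0 + C * 0) ^ 2 * (2 / t ^ 2 * ((2 * M) ^ 2 * Z + 1)))) = 0 := by ring
  rw [e0] at tt
  obtain ⟨k, hk⟩ := (tt.eventually (eventually_le_nhds hε)).exists
  have hk1 : (1:ℝ) / ((k:ℝ) + 1) ≤ 1 := by
    rw [div_le_one (by positivity)]; linarith [Nat.cast_nonneg (α := ℝ) k]
  obtain ⟨u, hu, hu'⟩ := cut_step hU hh hc hM' hm (δ := 1 / ((k:ℝ) + 1)) (by positivity) hk1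
    (hχ k).1 (hχ k).2.1 (hχ k).2.2.2.1 (hχ k).2.2.2.2
  exact ⟨u, hu, hu'.trans hk⟩

end Box

section Gen

variable {E : Type*} [NormedAddCommGroup E] [InnerProductSpace ℝ E]
    [FiniteDimensional ℝ E] [MeasurableSpace E] [BorelSpace E]
variable {ι : Type*} [Fintype ι]

omit [FiniteDimensional ℝ E] [MeasurableSpace E] [BorelSpace E] in
theorem D_comp_li {F : Type*} [NormedAddCommGroup F] [InnerProductSpace ℝ F] (φ : E ≃ₗᵢ[ℝ] F)
    (u : F → ℝ) (e x : E) : D e (fun y => u (φ y)) x = D (φ e) u (φ x) := by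
  have h := (φ.toContinuousLinearEquiv).comp_right_fderiv (f := u) (x := x)
  simp only [D]
  have h2 : (fun y => u (φ y)) = u ∘ φ.toContinuousLinearEquiv := rfl
  rw [h2, h]
  rfl

end Gen

end B3x

section Gen

open B3x

variable {E : Type*} [NormedAddCommGroup E] [InnerProductSpace ℝ E]
    [FiniteDimensional ℝ E] [MeasurableSpace E] [BorelSpace E]
variable {ι : Type*} [Fintype ι]

theorem dense_range (b : OrthonormalBasis ι ℝ E) {U h : E → ℝ} {t C : ℝ} (hU : Pot U t C)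
    (hh : ContDiff ℝ 1 h) (hc : HasCompactSupport h) {c : ℝ}
    (hm : c * (mu U).real univ = ∫ x, h x ∂(mu U)) {ε : ℝ} (hε : 0 < ε) :
    ∃ u : E → ℝ, Tst u ∧ ∫ x, (LO b U u x + (h x - c)) ^ 2 ∂(mu U) ≤ ε := by
  have hUc : Continuous U := hU.smooth.continuous
  set b0 := stdOrthonormalBasis ℝ E with hb0
  set φ := b0.repr with hφ
  have hmp : MeasurePreserving φ.symm volume volume := φ.symm.measurePreserving
  have hemb : MeasurableEmbedding φ.symm := φ.symm.toHomeomorph.measurableEmbedding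
  set U' : EuclideanSpace ℝ (Fin (Module.finrank ℝ E)) → ℝ := fun y => U (φ.symm y) with hU'
  have hPU' : Pot U' t C := pot_isom φ.symm hU
  have hU'c : Continuous U' := hPU'.smooth.continuous
  have hint : ∀ F : E → ℝ, ∫ y, F (φ.symm y) ∂(mu U') = ∫ x, F x ∂(mu U) := by
    intro F
    rw [integral_mu hU'c, integral_mu hUc]
    exact hmp.integral_comp hemb (fun x => F x * Real.exp (-U x))
  have hZ : (mu U').real univ = (mu U).real univ := by
    rw [mu_real_univ hU'c, mu_real_univ hUc]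
    exact hmp.integral_comp hemb (fun x => Real.exp (-U x))
  have hm' : c * (mu U').real univ = ∫ y, h (φ.symm y) ∂(mu U') := by
    rw [hZ, hm, hint h]
  have hh' : ContDiff ℝ 1 fun y => h (φ.symm y) := hh.comp φ.symm.contDiff
  have hc' : HasCompactSupport fun y => h (φ.symm y) :=
    hc.comp_homeomorph φ.symm.toHomeomorph
  obtain ⟨u, hu, hu'⟩ := dense_range_eucl hPU' hh' hc' hm' hε
  refine ⟨fun x => u (φ x), ⟨hu.1.comp φ.contDiff, hu.2.comp_homeomorph φ.toHomeomorph⟩, ?_⟩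
  refine le_trans (le_of_eq ?_) hu'
  rw [← hint]
  congr 1
  funext y
  have hux : ContDiff ℝ 2 (fun x => u (φ x)) :=
    contDiff_infty.1 (hu.1.comp φ.contDiff) 2
  rw [LO_indep b b0 hux]
  have hD : ∀ (f : EuclideanSpace ℝ (Fin (Module.finrank ℝ E)) → ℝ) i (x : E),
      D (b0 i) (fun x => f (φ x)) x =
        D (EuclideanSpace.basisFun (Fin (Module.finrank ℝ E)) ℝ i) f (φ x) := by
    intro f i x
    rw [D_comp_li φ f]
    congr 1
    rw [hφ, OrthonormalBasis.repr_self]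
    simp
  have hDU : ∀ i (x : E), D (b0 i) U x =
      D (EuclideanSpace.basisFun (Fin (Module.finrank ℝ E)) ℝ i) U' (φ x) := by
    intro i x
    rw [← hD U' i x]
    congr 1
    funext z
    simp [hU']
  have e1 : LO b0 U (fun x => u (φ x)) (φ.symm y) =
      LO (EuclideanSpace.basisFun (Fin (Module.finrank ℝ E)) ℝ) U' u y := by
    simp only [LO]
    have hf : ∀ i, D (b0 i) (fun x => u (φ x)) = fun x =>
        D (EuclideanSpace.basisFun (Fin (Module.finrank ℝ E)) ℝ i) u (φ x) := fun i =>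
      funext fun x => hD u i x
    simp only [hf, hDU]
    congr 1
    · refine Finset.sum_congr rfl fun i _ => ?_
      rw [hD (D (EuclideanSpace.basisFun (Fin (Module.finrank ℝ E)) ℝ i) u) i]
      simp
    · refine Finset.sum_congr rfl fun i _ => ?_
      simp
  rw [e1]

end Gen

end Pool.Agent.H84.Sym
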